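import Pool.Agent.TH628.J873
import Pool.Agent.TH286.J762
import Pool.Agent.TH817.J872

/-!
# Deletion of an arc: boundary cycles, parity, convexity (job 874 of MP_e5080e_gt)
-/

set_option autoImplicit false
namespace Pool.Agent.TH110.J874
open Pool.Agent.TH547.Arc
open Finset Equiv
open Pool.Agent.TH817.J872 (insP_nf_merge insP_nf_split insP_sc_merge insP_sc_split
  insP_sc_ends_merge insP_sc_ends_split exists_insP)
open Pool.Agent.TH628.J873

theorem own_self {μ x : List Sy} {s : Sy} (h1 : s ∈ μ) (h2 : s ∈ x) : own μ x s = some s := by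
  unfold own
  induction x with
  | nil => simp at h2
  | cons u x ih =>
    by_cases h : u = s
    · subst h
      rw [List.dropWhile_cons_of_neg (by simp), List.find?_cons_of_pos (by simpa using h1)]
    · rw [List.dropWhile_cons_of_pos (by simpa using h)]
      refine ih ?_
      rcases List.mem_cons.1 h2 with e | e
      · exact absurd e.symm h
      · exact e

section
variable {θ : Perm Sy} {μ : PW} {P Dd : Finset Sy} {X : PW} {a : ℕ}

theorem mem_of_mu (hX : OvP μ P X) {s : Sy} (hs : s ∈ μ.x) : s ∈ X.x := by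
  have h := hX.1
  rw [← h] at hs
  exact List.mem_of_mem_filter hs

theorem off_of_mu (haμ : a ∉ μ.ord) {s : Sy} (hs : s ∈ μ.x) : offA a s = true := by
  rw [offA_iff]
  constructor
  · rintro rfl; exact haμ ((PW.mem_ord' false).2 hs)
  · rintro rfl; exact haμ ((PW.mem_ord' true).2 hs)

theorem mem_dl {s : Sy} : s ∈ (X.dl a).x ↔ s ∈ X.x ∧ offA a s = true := by
  show s ∈ X.x.filter (offA a) ↔ _
  rw [List.mem_filter]

theorem not_mem_ord_dl : a ∉ (X.dl a).ord := by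
  rw [PW.ord_dl]
  exact fun h => (X.ord_nodup.mem_erase_iff.1 h).1 rfl

/-- the context of an inserted arc -/
structure Ctx (θ : Perm Sy) (Dd : Finset Sy) (X : PW) (a : ℕ) (u r : Sy) : Prop where
  inv : ∀ s ∈ (X.dl a).x, s ∉ Dd → fp θ (X.dl a).x s ∈ (X.dl a).x ∧ fp θ (X.dl a).x s ∉ Dd
  hD : ∀ s ∈ Dd, s ∈ (X.dl a).x
  h0 : θ (en a false) = en a true
  h1 : θ (en a true) = en a false
  hu : u ∈ (X.dl a).x
  huD : u ∉ Dd
  hr : r ∈ (X.dl a).x
  hrD : r ∉ Dd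
  hur : u = r ∨ [u, r].Sublist (X.dl a).x
  hb : a ∉ (X.dl a).ord
  eq : X = insP u r a (X.dl a)

theorem exists_ctx (hE : Env θ μ P Dd) (hX : OvP μ P X) (ha : a ∈ X.ord) (haμ : a ∉ μ.ord) :
    ∃ u r, Ctx θ Dd X a u r ∧ own μ.x X.x (en a false) = own μ.x (X.dl a).x u ∧
      own μ.x X.x (en a true) = own μ.x (X.dl a).x r := by
  obtain ⟨l, n, hl, hn⟩ := Env.last_mem hE hX
  obtain ⟨u, hu, r, hr, hur, heq, hown⟩ := exists_insP X ha ⟨l, n, hl⟩
  have e0 : en a false ∉ μ.x := fun h => haμ ((PW.mem_ord' false).2 h)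
  have e1 : en a true ∉ μ.x := fun h => haμ ((PW.mem_ord' true).2 h)
  obtain ⟨ho0, ho1⟩ := hown μ.x e0 ⟨l, n, hl, hn⟩ e1
  have m0 : en a false ∈ X.x := (PW.mem_ord' false).1 ha
  have m1 : en a true ∈ X.x := (PW.mem_ord' true).1 ha
  have hu' := mem_dl.1 hu
  have hr' := mem_dl.1 hr
  have key : ∀ s ∈ X.x, ∀ e ∈ X.x, e ∉ μ.x → own μ.x X.x e = own μ.x X.x s → s ∉ Dd := by
    intro s hs e he heμ ho hsD
    have h1 := own_self (hE.dsub s hsD) hs
    obtain ⟨p, hp, hpo⟩ := hX.2.2 e he heμ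
    rw [ho, h1] at hpo
    have : s = p := by simpa using hpo
    subst this
    exact (hE.sub s hp).2 hsD
  refine ⟨u, r, ⟨Env.fp_inv hE (OvP.dl hX haμ), ?_, hE.flip a haμ false, hE.flip a haμ true, hu,
    key u hu'.1 _ m0 e0 ho0, hr, key r hr'.1 _ m1 e1 ho1, hur, not_mem_ord_dl, heq⟩, ?_, ?_⟩
  · intro s hs
    exact mem_dl.2 ⟨mem_of_mu hX (hE.dsub s hs), off_of_mu haμ (hE.dsub s hs)⟩
  · rw [ho0, OvP.own_dl hX haμ hu'.2]
  · rw [ho1, OvP.own_dl hX haμ hr'.2]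

theorem Env.exists_ins (hE : Env θ μ P Dd) (hX : OvP μ P X) (ha : a ∈ X.ord) (haμ : a ∉ μ.ord) :
    ∃ u ∈ (X.dl a).x, ∃ r ∈ (X.dl a).x, u ∉ Dd ∧ r ∉ Dd ∧ (u = r ∨ [u, r].Sublist (X.dl a).x) ∧
      X = insP u r a (X.dl a) ∧ own μ.x X.x (en a false) = own μ.x (X.dl a).x u ∧
      own μ.x X.x (en a true) = own μ.x (X.dl a).x r := by
  obtain ⟨u, r, C, h1, h2⟩ := exists_ctx hE hX ha haμ
  exact ⟨u, C.hu, r, C.hr, C.huD, C.hrD, C.hur, C.eq, h1, h2⟩

variable {u r : Sy}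

theorem Ctx.same_iff (C : Ctx θ Dd X a u r) :
    (fp θ X.x).SameCycle (en a false) (en a true) ↔ ¬ (fp θ (X.dl a).x).SameCycle u r := by
  constructor
  · intro h h'
    have := insP_sc_ends_split C.inv C.hD C.h0 C.h1 C.hu C.huD C.hr C.hrD C.hur C.hb h'
    rw [← C.eq] at this
    exact this h
  · intro h
    have := (insP_sc_ends_merge C.inv C.hD C.h0 C.h1 C.hu C.huD C.hr C.hrD C.hur C.hb h).1
    rwa [← C.eq] at this

theorem Env.nf_dl_same (hE : Env θ μ P Dd) (hX : OvP μ P X) (ha : a ∈ X.ord) (haμ : a ∉ μ.ord)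
    (h : (fp θ X.x).SameCycle (en a false) (en a true)) :
    nf θ Dd (X.dl a).x = nf θ Dd X.x + 1 := by
  obtain ⟨u, r, C, -, -⟩ := exists_ctx hE hX ha haμ
  have := insP_nf_merge C.inv C.hD C.h0 C.h1 C.hu C.huD C.hr C.hrD C.hur C.hb (C.same_iff.1 h)
  rw [← C.eq] at this
  exact this.symm

theorem Env.nf_dl_diff (hE : Env θ μ P Dd) (hX : OvP μ P X) (ha : a ∈ X.ord) (haμ : a ∉ μ.ord)
    (h : ¬ (fp θ X.x).SameCycle (en a false) (en a true)) :
    nf θ Dd (X.dl a).x + 1 = nf θ Dd X.x := by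
  obtain ⟨u, r, C, -, -⟩ := exists_ctx hE hX ha haμ
  have h' : (fp θ (X.dl a).x).SameCycle u r := by
    by_contra h'
    exact h (C.same_iff.2 h')
  have := insP_nf_split C.inv C.hD C.h0 C.h1 C.hu C.huD C.hr C.hrD C.hur C.hb h'
  rw [← C.eq] at this
  exact this.symm

theorem Env.length_dl (ha : a ∈ X.ord) : (X.dl a).ord.length + 1 = X.ord.length := by
  rw [PW.ord_dl, List.length_erase_of_mem ha]
  have := List.length_pos_of_mem ha
  omega

theorem eq_of_no_free (hX : OvP μ P X) (h : ∀ a ∈ X.ord, a ∈ μ.ord) : X = μ := by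
  have h1 : X.x.filter (fun t => decide (t ∈ μ.x)) = X.x := by
    rw [List.filter_eq_self]
    intro s hs
    rw [decide_eq_true_eq]
    rcases s with n | ⟨b, e⟩
    · exact hX.2.1 n hs
    · exact (PW.mem_ord' e).1 (h b ((PW.mem_ord' e).2 hs))
  apply PW.ext
  rw [← h1, hX.1]

theorem parity_aux (hE : Env θ μ P Dd) : ∀ (n : ℕ) (X : PW), X.ord.length = n → OvP μ P X →
    (nf θ Dd X.x + X.ord.length) % 2 = (nf θ Dd μ.x + μ.ord.length) % 2 := by
  intro n
  induction n with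
  | zero =>
    intro X hn hX
    have : X = μ := by
      refine eq_of_no_free hX fun a ha => ?_
      rw [List.length_eq_zero_iff] at hn
      rw [hn] at ha
      simp at ha
    rw [this]
  | succ n ih =>
    intro X hn hX
    by_cases h : ∀ a ∈ X.ord, a ∈ μ.ord
    · rw [eq_of_no_free hX h]
    · push Not at h
      obtain ⟨a, ha, haμ⟩ := h
      have h1 := Env.length_dl ha
      have h2 := ih (X.dl a) (by omega) (OvP.dl hX haμ)
      by_cases hs : (fp θ X.x).SameCycle (en a false) (en a true)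
      · have h3 := Env.nf_dl_same hE hX ha haμ hs
        omega
      · have h3 := Env.nf_dl_diff hE hX ha haμ hs
        omega

theorem Env.parity (hE : Env θ μ P Dd) (hX : OvP μ P X) :
    (nf θ Dd X.x + X.ord.length) % 2 = (nf θ Dd μ.x + μ.ord.length) % 2 :=
  parity_aux hE _ X rfl hX

theorem Env.sc_dl_diff (hE : Env θ μ P Dd) (hX : OvP μ P X) (ha : a ∈ X.ord) (haμ : a ∉ μ.ord)
    (h : ¬ (fp θ X.x).SameCycle (en a false) (en a true)) {s t : Sy} (hs : s ∈ (X.dl a).x)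
    (ht : t ∈ (X.dl a).x) (hsD : s ∉ Dd) (htD : t ∉ Dd) (hst : (fp θ X.x).SameCycle s t) :
    (fp θ (X.dl a).x).SameCycle s t := by
  obtain ⟨u, r, C, -, -⟩ := exists_ctx hE hX ha haμ
  have h' : (fp θ (X.dl a).x).SameCycle u r := by
    by_contra h'
    exact h (C.same_iff.2 h')
  rw [C.eq] at hst
  exact insP_sc_split C.inv C.hD C.h0 C.h1 C.hu C.huD C.hr C.hrD C.hur C.hb h' hs hsD ht htD hst

theorem Env.sc_dl_same (hE : Env θ μ P Dd) (hX : OvP μ P X) (ha : a ∈ X.ord) (haμ : a ∉ μ.ord)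
    (h : (fp θ X.x).SameCycle (en a false) (en a true)) {s t : Sy} (hs : s ∈ (X.dl a).x)
    (ht : t ∈ (X.dl a).x) (hsD : s ∉ Dd) (htD : t ∉ Dd) (hst : (fp θ (X.dl a).x).SameCycle s t) :
    (fp θ X.x).SameCycle s t := by
  obtain ⟨u, r, C, -, -⟩ := exists_ctx hE hX ha haμ
  have h' := C.same_iff.1 h
  rw [C.eq]
  exact (insP_sc_merge C.inv C.hD C.h0 C.h1 C.hu C.huD C.hr C.hrD C.hur C.hb h' hs hsD ht htD).2
    (Or.inl hst)

/-- two permutations which agree on a cycle have this cycle in common -/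
theorem sameCycle_of_agree {α : Type} {σ τ : Perm α} {s : α}
    (h : ∀ t, σ.SameCycle s t → τ t = σ t) (t : α) : τ.SameCycle s t ↔ σ.SameCycle s t := by
  have key : ∀ n : ℕ, (τ ^ n) s = (σ ^ n) s := by
    intro n
    induction n with
    | zero => rfl
    | succ n ih =>
      rw [pow_succ', pow_succ', Perm.mul_apply, Perm.mul_apply, ih]
      exact h _ ⟨n, by rw [zpow_natCast]⟩
  have key2 : ∀ n : ℕ, ((τ ^ n)⁻¹) s = ((σ ^ n)⁻¹) s := by
    intro n
    induction n with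
    | zero => rfl
    | succ n ih =>
      rw [pow_succ, pow_succ, mul_inv_rev, mul_inv_rev, Perm.mul_apply, Perm.mul_apply, ih]
      have h1 := h (σ⁻¹ ((σ ^ n)⁻¹ s)) ⟨-(n + 1 : ℤ), by
        rw [zpow_neg, ← Perm.mul_apply, ← mul_inv_rev, ← pow_succ]
        norm_cast⟩
      rw [Perm.inv_eq_iff_eq, h1]
      exact (Equiv.apply_symm_apply σ _).symm
  have key3 : ∀ z : ℤ, (τ ^ z) s = (σ ^ z) s := by
    intro z
    obtain ⟨n, rfl | rfl⟩ := z.eq_nat_or_neg
    · rw [zpow_natCast, zpow_natCast]; exact key n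
    · rw [zpow_neg, zpow_neg, zpow_natCast, zpow_natCast]; exact key2 n
  unfold Perm.SameCycle
  simp only [key3]

theorem Ctx.far (C : Ctx θ Dd X a u r) {s : Sy} (h0 : ¬ (fp θ X.x).SameCycle s (en a false))
    (h1 : ¬ (fp θ X.x).SameCycle s (en a true)) (t : Sy) :
    (fp θ (X.dl a).x).SameCycle s t ↔ (fp θ X.x).SameCycle s t := by
  have e0 : en a false ∉ (X.dl a).x := fun h => C.hb ((PW.mem_ord' false).2 h)
  have e1 : en a true ∉ (X.dl a).x := fun h => C.hb ((PW.mem_ord' true).2 h)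
  have hx : X.x = ins2 u r a (X.dl a).x := by
    conv_lhs => rw [C.eq]
    exact insP_x C.hu C.hr C.hur C.hb
  have hf : fp θ X.x = swap (en a true) r * (swap (en a false) u * fp θ (X.dl a).x) := by
    rw [hx]
    exact Pool.Agent.TH286.J762.fp_ins2 θ _ (X.dl a).nd u r a C.hu C.hr e0 e1
  have hf' : fp θ (X.dl a).x = swap (en a false) u * (swap (en a true) r * fp θ X.x) := by
    rw [hf, ← mul_assoc (swap (en a true) r), Equiv.swap_mul_self, one_mul, ← mul_assoc,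
      Equiv.swap_mul_self, one_mul]
  -- the values at the ends of the arc
  have y0 : fp θ (X.dl a).x (en a false) = en a true := by
    unfold fp
    rw [Perm.mul_apply, C.h0, List.formPerm_apply_of_notMem e1]
  have y1 : fp θ (X.dl a).x (en a true) = en a false := by
    unfold fp
    rw [Perm.mul_apply, C.h1, List.formPerm_apply_of_notMem e0]
  have n01 : en a true ≠ en a false := by simp
  have nu1 : en a true ≠ u := fun h => e1 (h ▸ C.hu)
  have nu0 : en a false ≠ u := fun h => e0 (h ▸ C.hu)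
  have nr0 : en a false ≠ r := fun h => e0 (h ▸ C.hr)
  have nr1 : en a true ≠ r := fun h => e1 (h ▸ C.hr)
  have x0 : fp θ X.x (en a false) = r := by
    rw [hf, Perm.mul_apply, Perm.mul_apply, y0, swap_apply_of_ne_of_ne n01 nu1, swap_apply_left]
  have x1 : u ≠ r → fp θ X.x (en a true) = u := by
    intro h
    rw [hf, Perm.mul_apply, Perm.mul_apply, y1, swap_apply_left,
      swap_apply_of_ne_of_ne (Ne.symm nu1) h]
  have hr' : ¬ (fp θ X.x).SameCycle s r := by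
    intro h
    rw [← x0] at h
    exact h0 (Perm.sameCycle_apply_right.1 h)
  have hu' : ¬ (fp θ X.x).SameCycle s u := by
    intro h
    by_cases hur : u = r
    · exact hr' (hur ▸ h)
    · rw [← x1 hur] at h
      exact h1 (Perm.sameCycle_apply_right.1 h)
  refine sameCycle_of_agree ?_ t
  intro t ht
  have ht' : (fp θ X.x).SameCycle s (fp θ X.x t) := Perm.sameCycle_apply_right.2 ht
  have a1 : fp θ X.x t ≠ en a true := fun h => h1 (h ▸ ht')
  have a2 : fp θ X.x t ≠ r := fun h => hr' (h ▸ ht')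
  have a3 : fp θ X.x t ≠ en a false := fun h => h0 (h ▸ ht')
  have a4 : fp θ X.x t ≠ u := fun h => hu' (h ▸ ht')
  rw [hf', Perm.mul_apply, Perm.mul_apply, swap_apply_of_ne_of_ne a1 a2,
    swap_apply_of_ne_of_ne a3 a4]

theorem Env.sc_dl_far (hE : Env θ μ P Dd) (hX : OvP μ P X) (ha : a ∈ X.ord) (haμ : a ∉ μ.ord)
    {s t : Sy} (hs : s ∈ (X.dl a).x) (ht : t ∈ (X.dl a).x) (hsD : s ∉ Dd) (htD : t ∉ Dd)
    (h0 : ¬ (fp θ X.x).SameCycle s (en a false)) (h1 : ¬ (fp θ X.x).SameCycle s (en a true)) :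
    (fp θ (X.dl a).x).SameCycle s t ↔ (fp θ X.x).SameCycle s t := by
  obtain ⟨u, r, C, -, -⟩ := exists_ctx hE hX ha haμ
  exact C.far h0 h1 t
end

theorem mem_nmW {X : PW} {a : ℕ} : a ∈ W.nm X ↔ a ∈ X.ord := by
  show a ∈ X.ord.toFinset ↔ a ∈ X.ord
  rw [List.mem_toFinset]

theorem rnS_of_mu {μ : PW} {π : Perm ℕ} (hπ : ∀ a ∈ W.nm μ, π a = a) {s : Sy} (hs : s ∈ μ.x) :
    rnS π s = s := by
  rcases s with n | ⟨b, e⟩
  · rfl
  · rw [rnS_en, hπ b (mem_nmW.2 ((PW.mem_ord' e).2 hs))]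

theorem mem_free {μ X : PW} {a : ℕ} : a ∈ W.nm X \ W.nm μ ↔ a ∈ X.ord ∧ a ∉ μ.ord := by
  rw [Finset.mem_sdiff, mem_nmW, mem_nmW]

/-- the predicates of the proof are invariant and convex -/
theorem PN_inv {θ : Perm Sy} {μ : PW} {P Dd : Finset Sy} (hE : Env θ μ P Dd) (c : ℕ) :
    Sys.Inv (S := W) (W.nm μ) (PN θ μ P Dd c) := by
  intro π hπ (X : PW) hXc
  obtain ⟨hX, hc⟩ := hXc
  refine ⟨OvP.rn hX hπ, ?_⟩
  show nf θ Dd (X.rn π).x + (X.rn π).ord.length ≤ c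
  rw [Env.rn_nf hE hπ, PW.ord_rn, List.length_map]
  exact hc

theorem PN_dl {θ : Perm Sy} {μ : PW} {P Dd : Finset Sy} (hE : Env θ μ P Dd) {c : ℕ} {X : PW}
    (hX : PN θ μ P Dd c X) {a : ℕ} (ha : a ∈ X.ord) (haμ : a ∉ μ.ord) :
    PN θ μ P Dd c (X.dl a) := by
  obtain ⟨hX, hc⟩ := hX
  refine ⟨OvP.dl hX haμ, ?_⟩
  have h1 := Env.length_dl ha
  by_cases hs : (fp θ X.x).SameCycle (en a false) (en a true)
  · have h3 := Env.nf_dl_same hE hX ha haμ hs
    omega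
  · have h3 := Env.nf_dl_diff hE hX ha haμ hs
    omega

theorem PN_cvx {θ : Perm Sy} {μ : PW} {P Dd : Finset Sy} (hE : Env θ μ P Dd) (c : ℕ) :
    Sys.Cvx (S := W) (W.nm μ) (PN θ μ P Dd c) := by
  intro (X : PW) hX a ha b _ _ _
  have ha' := mem_free.1 ha
  exact PN_dl hE hX ha'.1 ha'.2

theorem PA_inv {θ : Perm Sy} {μ : PW} {P Dd : Finset Sy} (hE : Env θ μ P Dd) (c : ℕ) {B : Sy}
    (hB : B ∈ μ.x) {A : Finset Sy} (hA : ∀ s ∈ A, s ∈ μ.x) :
    Sys.Inv (S := W) (W.nm μ) (PA θ μ P Dd c B A) := by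
  intro π hπ (X : PW) hXc
  obtain ⟨hX, hc, hs⟩ := hXc
  refine ⟨OvP.rn hX hπ, ?_, ?_⟩
  · show nf θ Dd (X.rn π).x + (X.rn π).ord.length = c
    rw [Env.rn_nf hE hπ, PW.ord_rn, List.length_map]
    exact hc
  · intro a ha h
    change (fp θ (X.rn π).x).SameCycle B a at h
    rw [← rnS_of_mu hπ hB, ← rnS_of_mu hπ (hA a ha), Env.rn_sc hE hπ] at h
    exact hs a ha h

theorem PA_cvx {θ : Perm Sy} {μ : PW} {P Dd : Finset Sy} (hE : Env θ μ P Dd) (c : ℕ) {B : Sy}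
    (hB : B ∈ μ.x) (hBD : B ∉ Dd) {A : Finset Sy} (hA : ∀ s ∈ A, s ∈ μ.x ∧ s ∉ Dd) :
    Sys.Cvx (S := W) (W.nm μ) (PA θ μ P Dd c B A) := by
  intro (X : PW) hXc a ha' b hb' hab hZ
  obtain ⟨hX, hc, hs⟩ := hXc
  obtain ⟨-, hcZ, -⟩ := hZ
  have ha := mem_free.1 ha'
  have hb := mem_free.1 hb'
  change nf θ Dd ((X.dl a).dl b).x + ((X.dl a).dl b).ord.length = c at hcZ
  have hY : OvP μ P (X.dl a) := OvP.dl hX ha.2
  have hbY : b ∈ (X.dl a).ord := by
    rw [PW.ord_dl, X.ord_nodup.mem_erase_iff]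
    exact ⟨Ne.symm hab, hb.1⟩
  have l1 := Env.length_dl ha.1
  have l2 := Env.length_dl hbY
  have e2 : nf θ Dd ((X.dl a).dl b).x ≤ nf θ Dd (X.dl a).x + 1 := by
    by_cases h : (fp θ (X.dl a).x).SameCycle (en b false) (en b true)
    · exact (Env.nf_dl_same hE hY hbY hb.2 h).le
    · have := Env.nf_dl_diff hE hY hbY hb.2 h
      omega
  have hsame : (fp θ X.x).SameCycle (en a false) (en a true) := by
    by_contra h
    have := Env.nf_dl_diff hE hX ha.1 ha.2 h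
    omega
  have e1 := Env.nf_dl_same hE hX ha.1 ha.2 hsame
  refine ⟨hY, ?_, ?_⟩
  · show nf θ Dd (X.dl a).x + (X.dl a).ord.length = c
    omega
  · intro s hsA h
    exact hs s hsA (Env.sc_dl_same hE hX ha.1 ha.2 hsame
      (mem_dl.2 ⟨mem_of_mu hX hB, off_of_mu ha.2 hB⟩)
      (mem_dl.2 ⟨mem_of_mu hX (hA s hsA).1, off_of_mu ha.2 (hA s hsA).1⟩) hBD (hA s hsA).2 h)

end Pool.Agent.TH110.J874
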