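import Pool.Agent.TH110.J874
import Pool.Agent.TH286.J761
import Pool.Agent.TH286.J846
import Pool.Agent.TH553.J769
import Pool.Agent.TH817.J872
import Pool.Agent.TH547.Arc.Mark2
set_option autoImplicit false

/-! Lemmas for the main induction: pure cycles, linked symbols, the base case. -/
namespace Pool.Agent.TH110.J924
open Pool.Agent.TH547.Arc Pool.Agent.TH110.J874
open Pool.Agent.TH628.J873 hiding mem_of_mu
open Pool.Agent.TH817.J872
open Finset Equiv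

section
variable {θ : Perm Sy} {μ : PW} {P Dd : Finset Sy} {X : PW}

theorem fp_mu_mem (hE : Env θ μ P Dd) : ∀ s ∈ μ.x, fp θ μ.x s ∈ μ.x :=
  Env.fp_mem hE (OvP.self hE)

/-- a predicate on the symbols of `μ` which is inherited by the next symbol on the boundary cycle
holds on the whole boundary cycle -/
theorem mu_induct (hE : Env θ μ P Dd) {R : Sy → Prop}
    (hR : ∀ s ∈ μ.x, R s → R (fp θ μ.x s)) {s t : Sy} (hs : s ∈ μ.x) (h : R s)
    (hst : (fp θ μ.x).SameCycle s t) : t ∈ μ.x ∧ R t := by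
  classical
  have := Pool.Agent.TH286.J761.sc_mem (fp θ μ.x) (μ.x.toFinset.filter R) (by
    intro u hu
    rw [Finset.mem_filter, List.mem_toFinset] at hu ⊢
    exact ⟨fp_mu_mem hE u hu.1, hR u hu.1 hu.2⟩) (a := s) (s := t) (by
    rw [Finset.mem_filter, List.mem_toFinset]
    exact ⟨hs, h⟩) hst
  rw [Finset.mem_filter, List.mem_toFinset] at this
  exact this

/-- the same for predicates inherited by the previous symbol -/
theorem mu_induct' (hE : Env θ μ P Dd) {R : Sy → Prop}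
    (hR : ∀ s ∈ μ.x, R (fp θ μ.x s) → R s) {s t : Sy} (hs : s ∈ μ.x) (h : R s)
    (hst : (fp θ μ.x).SameCycle s t) : t ∈ μ.x ∧ R t := by
  have ht : t ∈ μ.x := (mu_induct hE (R := fun _ => True) (fun _ _ _ => trivial) hs trivial hst).1
  refine ⟨ht, ?_⟩
  by_contra hn
  exact (mu_induct hE (R := fun u => ¬ R u) (fun u hu h1 h2 => h1 (hR u hu h2)) ht hn hst.symm).2 h

theorem cyc_mem (hE : Env θ μ P Dd) (hX : OvP μ P X) {s t : Sy} (hs : s ∈ X.x)
    (h : (fp θ X.x).SameCycle s t) : t ∈ X.x := by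
  have := Pool.Agent.TH286.J761.sc_mem (fp θ X.x) X.x.toFinset (by
    intro u hu
    rw [List.mem_toFinset] at hu ⊢
    exact Env.fp_mem hE hX u hu) (a := s) (s := t) (by
    rw [List.mem_toFinset]; exact hs) h
  rwa [List.mem_toFinset] at this

theorem cyc_live (hE : Env θ μ P Dd) (hX : OvP μ P X) {s t : Sy} (hs : s ∈ X.x) (hsD : s ∉ Dd)
    (h : (fp θ X.x).SameCycle s t) : t ∈ X.x ∧ t ∉ Dd := by
  have := Pool.Agent.TH286.J761.sc_mem (fp θ X.x) (X.x.toFinset \ Dd) (by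
    intro u hu
    rw [Finset.mem_sdiff, List.mem_toFinset] at hu ⊢
    exact Env.fp_inv hE hX u hu.1 hu.2) (a := s) (s := t) (by
    rw [Finset.mem_sdiff, List.mem_toFinset]; exact ⟨hs, hsD⟩) h
  rwa [Finset.mem_sdiff, List.mem_toFinset] at this

theorem own_live (hE : Env θ μ P Dd) (hX : OvP μ P X) {p c0 : Sy} (hp : p ∈ P)
    (hown : own μ.x X.x c0 = some p) : c0 ∉ Dd := by
  intro hD
  have hc : c0 ∈ μ.x := hE.dsub c0 hD
  rw [own_self hc (mem_of_mu hX hc), Option.some.injEq] at hown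
  exact (hE.sub p hp).2 (hown ▸ hD)

/-- frozen symbols on a boundary cycle which only sees the block of `p` -/
theorem pure_marker (hE : Env θ μ P Dd) (hX : OvP μ P X) {p c0 m : Sy} (hp : p ∈ P)
    (hc0 : c0 ∈ X.x) (hpu : ∀ t, (fp θ X.x).SameCycle c0 t → t ∉ P.erase p ∧
        (t ∈ μ.x ∨ (own μ.x X.x t = some p ∧ own μ.x X.x (θ t) = some p)))
    (hown : own μ.x X.x c0 = some p) (hm : m ∈ μ.x) (h : (fp θ X.x).SameCycle c0 m) :
    (fp θ μ.x).SameCycle m p ∧ ∀ p' ∈ P, (fp θ μ.x).SameCycle m p' → p' = p := by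
  have hin : ∀ t, (fp θ X.x).SameCycle c0 t → t ∈ P → t = p := by
    intro t ht htP
    by_contra hne
    exact (hpu t ht).1 (Finset.mem_erase.2 ⟨hne, htP⟩)
  have hmD : m ∉ Dd := (cyc_live hE hX hc0 (own_live hE hX hp hown) h).2
  -- the symbol `p` is on the cycle
  have hpC : (fp θ X.x).SameCycle c0 p := by
    by_contra hpC
    obtain ⟨p1, hp1, hmp1⟩ := hE.live m hm hmD
    have key : ∀ s ∈ μ.x, (fp θ X.x).SameCycle c0 (fp θ μ.x s) → (fp θ X.x).SameCycle c0 s := by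
      intro s hs hsc
      -- `t = fp θ μ s` is on the cycle `C` and not in `P`
      set t := fp θ μ.x s with ht
      have htμ : t ∈ μ.x := fp_mu_mem hE s hs
      have htP : t ∉ P := fun hP => hpC (hin t hsc hP ▸ hsc)
      have := Env.fp_marker_eq hE hX hs (ht ▸ htP)
      rw [← ht] at this
      rw [← this] at hsc
      exact Perm.sameCycle_apply_right.1 hsc
    have := (mu_induct' hE (R := fun u => (fp θ X.x).SameCycle c0 u) key hm h hmp1).2
    exact hpC (hin p1 this hp1 ▸ this)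
  -- forward invariance
  have key : ∀ s ∈ μ.x, (fp θ X.x).SameCycle c0 s → (fp θ X.x).SameCycle c0 (fp θ μ.x s) := by
    intro s hs hsc
    by_cases hP : fp θ μ.x s ∈ P
    · have h1 : (fp θ X.x).SameCycle c0 (fp θ X.x s) := Perm.sameCycle_apply_right.2 hsc
      have ho := Env.fp_marker hE hX hs
      rcases (hpu _ h1).2 with h2 | ⟨h2, -⟩
      · rw [own_self h2 (mem_of_mu hX h2), Option.some.injEq] at ho
        rw [← ho]; exact h1
      · rw [h2, Option.some.injEq] at ho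
        rw [← ho]; exact hpC
    · rw [← Env.fp_marker_eq hE hX hs hP]
      exact Perm.sameCycle_apply_right.2 hsc
  have huniq : ∀ p' ∈ P, (fp θ μ.x).SameCycle m p' → p' = p := by
    intro p' hp' hmp'
    exact hin p' (mu_induct hE (R := fun u => (fp θ X.x).SameCycle c0 u) key hm h hmp').2 hp'
  obtain ⟨p1, hp1, hmp1⟩ := hE.live m hm hmD
  have := huniq p1 hp1 hmp1
  exact ⟨this ▸ hmp1, huniq⟩

/-- the symbols of a boundary cycle of `μ` with a single allowed block stay together -/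
theorem linked (hE : Env θ μ P Dd) (hX : OvP μ P X) {q m : Sy} (hq : q ∈ P) (hm : m ∈ μ.x)
    (h : (fp θ μ.x).SameCycle m q) (hu : ∀ p' ∈ P, (fp θ μ.x).SameCycle q p' → p' = q) :
    (fp θ X.x).SameCycle m q := by
  have hqμ := (hE.sub q hq).1
  have key : ∀ s ∈ μ.x, ((fp θ μ.x).SameCycle q s ∧ (fp θ X.x).SameCycle q s) →
      ((fp θ μ.x).SameCycle q (fp θ μ.x s) ∧ (fp θ X.x).SameCycle q (fp θ μ.x s)) := by
    rintro s hs ⟨h1, h2⟩
    have h3 : (fp θ μ.x).SameCycle q (fp θ μ.x s) := Perm.sameCycle_apply_right.2 h1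
    refine ⟨h3, ?_⟩
    by_cases hP : fp θ μ.x s ∈ P
    · rw [hu _ hP h3]
    · rw [← Env.fp_marker_eq hE hX hs hP]
      exact Perm.sameCycle_apply_right.2 h2
  exact (mu_induct hE (R := fun s => (fp θ μ.x).SameCycle q s ∧ (fp θ X.x).SameCycle q s) key hqμ
    ⟨Perm.SameCycle.refl _ _, Perm.SameCycle.refl _ _⟩ h.symm).2.2.symm

/-- the data of an insertion -/
theorem ins_data (hE : Env θ μ P Dd) {p q : Sy} (hp : p ∈ P) (hq : q ∈ P) (hpq : p ≠ q)
    {X : PW} {c0 u v : Sy} {b : ℕ} (hX : OvP μ P X) (hc0 : c0 ∈ X.x)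
    (hown : own μ.x X.x c0 = some p)
    (hpu : ∀ t, (fp θ X.x).SameCycle c0 t → t ∉ P.erase p ∧
        (t ∈ μ.x ∨ (own μ.x X.x t = some p ∧ own μ.x X.x (θ t) = some p)))
    (huv : (u = c0 ∧ v = q) ∨ (u = q ∧ v = c0)) :
    u ∈ X.x ∧ u ∉ Dd ∧ v ∈ X.x ∧ v ∉ Dd ∧ ¬ (fp θ X.x).SameCycle c0 q ∧
      ¬ (fp θ X.x).SameCycle u v := by
  have hqX : q ∈ X.x := mem_of_mu hX (hE.sub q hq).1
  have hqD : q ∉ Dd := (hE.sub q hq).2
  have hcD : c0 ∉ Dd := own_live hE hX hp hown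
  have hn : ¬ (fp θ X.x).SameCycle c0 q :=
    fun h => (hpu q h).1 (Finset.mem_erase.2 ⟨Ne.symm hpq, hq⟩)
  rcases huv with ⟨rfl, rfl⟩ | ⟨rfl, rfl⟩
  · exact ⟨hc0, hcD, hqX, hqD, hn, hn⟩
  · exact ⟨hqX, hqD, hc0, hcD, hn, fun h => hn h.symm⟩

/-- hypothesis `hins` of the G-lemma for `PN` -/
theorem ins_sum (hE : Env θ μ P Dd) {p q : Sy} (hp : p ∈ P) (hq : q ∈ P) (hpq : p ≠ q)
    {X : PW} {c0 u v : Sy} {b : ℕ} (hX : OvP μ P X) (hc0 : c0 ∈ X.x)
    (hown : own μ.x X.x c0 = some p)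
    (hpu : ∀ t, (fp θ X.x).SameCycle c0 t → t ∉ P.erase p ∧
        (t ∈ μ.x ∨ (own μ.x X.x t = some p ∧ own μ.x X.x (θ t) = some p)))
    (huv : (u = c0 ∧ v = q) ∨ (u = q ∧ v = c0)) (hsub : [u, v].Sublist X.x) (hb : b ∉ X.ord)
    (hbμ : b ∉ μ.ord) :
    nf θ Dd (insP u v b X).x + (insP u v b X).ord.length = nf θ Dd X.x + X.ord.length := by
  obtain ⟨hu, huD, hv, hvD, -, hn⟩ := ins_data (b := b) hE hp hq hpq hX hc0 hown hpu huv
  have h1 := insP_nf_merge (Env.fp_inv hE hX) (fun s hs => mem_of_mu hX (hE.dsub s hs))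
    (hE.flip b hbμ false) (hE.flip b hbμ true) hu huD hv hvD (Or.inr hsub) hb hn
  have h2 := Pool.Agent.TH286.J846.insP_length hu hv (Or.inr hsub) hb
  omega

theorem hins_N (hE : Env θ μ P Dd) {p q : Sy} (hp : p ∈ P) (hq : q ∈ P) (hpq : p ≠ q) (c : ℕ) :
    ∀ (X : PW) (c0 u v : Sy) (b : ℕ), OvP μ P X → c0 ∈ X.x → own μ.x X.x c0 = some p →
      (∀ t, (fp θ X.x).SameCycle c0 t → t ∉ P.erase p ∧
        (t ∈ μ.x ∨ (own μ.x X.x t = some p ∧ own μ.x X.x (θ t) = some p))) →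
      ((u = c0 ∧ v = q) ∨ (u = q ∧ v = c0)) → [u, v].Sublist X.x → b ∉ X.ord → b ∉ μ.ord →
      ((nf θ Dd (insP u v b X).x + (insP u v b X).ord.length ≤ c) ↔
        (nf θ Dd X.x + X.ord.length ≤ c)) := by
  intro X c0 u v b hX hc0 hown hpu huv hsub hb hbμ
  rw [ins_sum hE hp hq hpq hX hc0 hown hpu huv hsub hb hbμ]

/-- hypothesis `hins` of the G-lemma for `PA` -/
theorem hins_A (hE : Env θ μ P Dd) {p q : Sy} (hp : p ∈ P) (hq : q ∈ P) (hpq : p ≠ q) (c : ℕ)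
    {B : Sy} (hB : B ∈ μ.x) (hBD : B ∉ Dd) {A : Finset Sy} (hA : ∀ a ∈ A, a ∈ μ.x)
    (hpB : (fp θ μ.x).SameCycle p B → ∃ p' ∈ P, p' ≠ p ∧ (fp θ μ.x).SameCycle p p')
    (hpA : (∃ a ∈ A, (fp θ μ.x).SameCycle p a) →
      (∃ p' ∈ P, p' ≠ p ∧ (fp θ μ.x).SameCycle p p') ∨
      (∃ a ∈ A, (fp θ μ.x).SameCycle q a ∧ ∀ p' ∈ P, (fp θ μ.x).SameCycle q p' → p' = q)) :
    ∀ (X : PW) (c0 u v : Sy) (b : ℕ), OvP μ P X → c0 ∈ X.x → own μ.x X.x c0 = some p →
      (∀ t, (fp θ X.x).SameCycle c0 t → t ∉ P.erase p ∧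
        (t ∈ μ.x ∨ (own μ.x X.x t = some p ∧ own μ.x X.x (θ t) = some p))) →
      ((u = c0 ∧ v = q) ∨ (u = q ∧ v = c0)) → [u, v].Sublist X.x → b ∉ X.ord → b ∉ μ.ord →
      ((nf θ Dd (insP u v b X).x + (insP u v b X).ord.length = c ∧
          ∀ a ∈ A, ¬ (fp θ (insP u v b X).x).SameCycle B a) ↔
        (nf θ Dd X.x + X.ord.length = c ∧ ∀ a ∈ A, ¬ (fp θ X.x).SameCycle B a)) := by
  intro X c0 u v b hX hc0 hown hpu huv hsub hb hbμ
  rw [ins_sum hE hp hq hpq hX hc0 hown hpu huv hsub hb hbμ]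
  refine and_congr_right fun _ => ?_
  obtain ⟨hu, huD, hv, hvD, hn0, hn⟩ := ins_data (b := b) hE hp hq hpq hX hc0 hown hpu huv
  have hDX : ∀ s ∈ Dd, s ∈ X.x := fun s hs => mem_of_mu hX (hE.dsub s hs)
  have hBX : B ∈ X.x := mem_of_mu hX hB
  have hmg : ∀ a ∈ X.x, a ∉ Dd → _ := fun a ha haD =>
    insP_sc_merge (Env.fp_inv hE hX) hDX
      (hE.flip b hbμ false) (hE.flip b hbμ true) hu huD hv hvD (Or.inr hsub) hb hn hBX hBD ha haD
  have hmem := Pool.Agent.TH286.J846.insP_mem hu hv (Or.inr hsub) hb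
  have hinv := insP_inv (Env.fp_inv hE hX) hDX
      (hE.flip b hbμ false) (hE.flip b hbμ true) hu huD hv hvD (Or.inr hsub) hb
  have hBC : ¬ (fp θ X.x).SameCycle c0 B := by
    intro h
    obtain ⟨h1, h2⟩ := pure_marker hE hX hp hc0 hpu hown hB h
    obtain ⟨p', hp', hne, h3⟩ := hpB h1.symm
    exact hne (h2 p' hp' (h1.trans h3))
  constructor
  · intro h a ha hs
    have haX := mem_of_mu hX (hA a ha)
    have haD := (cyc_live hE hX hBX hBD hs).2
    exact h a ha ((hmg a haX haD).2 (Or.inl hs))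
  · intro h a ha hs
    have haX := mem_of_mu hX (hA a ha)
    have haD : a ∉ Dd := by
      have := Pool.Agent.TH286.J761.sc_mem (fp θ (insP u v b X).x)
        ((insP u v b X).x.toFinset \ Dd) (by
        intro w hw
        rw [Finset.mem_sdiff, List.mem_toFinset] at hw ⊢
        exact hinv w hw.1 hw.2) (a := B) (s := a) (by
        rw [Finset.mem_sdiff, List.mem_toFinset]
        exact ⟨(hmem B).2 (Or.inl hBX), hBD⟩) hs
      exact (Finset.mem_sdiff.1 this).2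
    rcases (hmg a haX haD).1 hs with h1 | ⟨h1, h2⟩
    · exact h a ha h1
    · have hqB : (fp θ X.x).SameCycle q B := by
        rcases huv with ⟨rfl, rfl⟩ | ⟨rfl, rfl⟩
        · exact h1.resolve_left hBC
        · exact h1.resolve_right hBC
      have h3 : (fp θ X.x).SameCycle q a ∨ (fp θ X.x).SameCycle c0 a := by
        rcases huv with ⟨rfl, rfl⟩ | ⟨rfl, rfl⟩
        · exact h2.symm
        · exact h2
      rcases h3 with h3 | h3
      · exact h a ha (hqB.symm.trans h3)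
      · obtain ⟨h4, h5⟩ := pure_marker hE hX hp hc0 hpu hown (hA a ha) h3
        rcases hpA ⟨a, ha, h4.symm⟩ with ⟨p', hp', hne, h6⟩ | ⟨a', ha', h6, h7⟩
        · exact hne (h5 p' hp' (h4.trans h6))
        · exact h a' ha' (hqB.symm.trans (linked hE hX hq (hA a' ha') h6.symm h7).symm)
end

/-- the number of live cycles after composition with a transposition of two live symbols -/
theorem nf_swap {θ : Perm Sy} {μ : PW} {P Dd : Finset Sy} (hE : Env θ μ P Dd) {X : PW}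
    (hX : OvP μ P X) {B a0 : Sy} (hB : B ∈ μ.x) (hBD : B ∉ Dd) (ha0 : a0 ∈ μ.x) (ha0D : a0 ∉ Dd)
    (hne : B ≠ a0) :
    ((fp θ X.x).SameCycle B a0 → nf (θ * swap B a0) Dd X.x = nf θ Dd X.x + 1) ∧
    (¬ (fp θ X.x).SameCycle B a0 → nf (θ * swap B a0) Dd X.x + 1 = nf θ Dd X.x) := by
  have hf : fp (θ * swap B a0) X.x = swap (fp θ X.x B) (fp θ X.x a0) * fp θ X.x := by
    unfold fp
    rw [← mul_assoc, Equiv.mul_swap_eq_swap_mul]
  have hinv : ∀ s ∈ X.x.toFinset \ Dd, fp θ X.x s ∈ X.x.toFinset \ Dd := by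
    intro u hu
    rw [Finset.mem_sdiff, List.mem_toFinset] at hu ⊢
    exact Env.fp_inv hE hX u hu.1 hu.2
  have hBX : fp θ X.x B ∈ X.x.toFinset \ Dd := hinv B (by
    rw [Finset.mem_sdiff, List.mem_toFinset]; exact ⟨mem_of_mu hX hB, hBD⟩)
  have haX : fp θ X.x a0 ∈ X.x.toFinset \ Dd := hinv a0 (by
    rw [Finset.mem_sdiff, List.mem_toFinset]; exact ⟨mem_of_mu hX ha0, ha0D⟩)
  have hiff : (fp θ X.x).SameCycle (fp θ X.x B) (fp θ X.x a0) ↔ (fp θ X.x).SameCycle B a0 := by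
    rw [Perm.sameCycle_apply_left, Perm.sameCycle_apply_right]
  constructor
  · intro h
    unfold nf
    rw [hf]
    exact Pool.Agent.TH286.J761.ncy_split _ _ hinv hBX haX
      (fun h' => hne ((fp θ X.x).injective h')) (hiff.2 h)
  · intro h
    unfold nf
    rw [hf]
    exact Pool.Agent.TH286.J761.ncy_merge _ _ hinv hBX haX (fun h' => h (hiff.1 h'))

theorem Env_swap {θ : Perm Sy} {μ : PW} {P Dd : Finset Sy} (hE : Env θ μ P Dd)
    {B a0 : Sy} (hB : B ∈ μ.x) (hBD : B ∉ Dd) (ha0 : a0 ∈ μ.x) (ha0D : a0 ∉ Dd)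
    (hBa : ¬ (fp θ μ.x).SameCycle B a0) : Env (θ * swap B a0) μ P Dd := by
  have hf : fp (θ * swap B a0) μ.x = swap (fp θ μ.x B) (fp θ μ.x a0) * fp θ μ.x := by
    unfold fp
    rw [← mul_assoc, Equiv.mul_swap_eq_swap_mul]
  have hf2 : ∀ s, s ≠ B → s ≠ a0 → fp (θ * swap B a0) μ.x s = fp θ μ.x s := by
    intro s h1 h2
    unfold fp
    rw [Perm.mul_apply, Perm.mul_apply, Perm.mul_apply, swap_apply_of_ne_of_ne h1 h2]
  refine ⟨?_, ?_, hE.last, hE.sub, hE.dsub, ?_, ?_, hE.ne⟩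
  · intro a ha e
    have h1 : en a e ≠ B := fun h => ha ((PW.mem_ord' e).2 (h ▸ hB))
    have h2 : en a e ≠ a0 := fun h => ha ((PW.mem_ord' e).2 (h ▸ ha0))
    rw [Perm.mul_apply, swap_apply_of_ne_of_ne h1 h2]
    exact hE.flip a ha e
  · intro s hs
    rw [Perm.mul_apply]
    refine hE.pres _ ?_
    rcases eq_or_ne s B with rfl | h1
    · rw [swap_apply_left]; exact ha0
    · rcases eq_or_ne s a0 with rfl | h2
      · rw [swap_apply_right]; exact hB
      · rw [swap_apply_of_ne_of_ne h1 h2]; exact hs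
  · intro s hs
    have h1 : s ≠ B := fun h => hBD (h ▸ hs)
    have h2 : s ≠ a0 := fun h => ha0D (h ▸ hs)
    rw [hf2 s h1 h2]
    exact hE.dinv s hs
  · intro s hs hsD
    obtain ⟨p, hp, hsp⟩ := hE.live s hs hsD
    refine ⟨p, hp, ?_⟩
    rw [hf]
    have hinv : ∀ s ∈ μ.x.toFinset, fp θ μ.x s ∈ μ.x.toFinset := by
      intro u hu
      rw [List.mem_toFinset] at hu ⊢
      exact fp_mu_mem hE u hu
    refine (Pool.Agent.TH286.J761.sc_merge (fp θ μ.x) μ.x.toFinset hinv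
      (hinv B (List.mem_toFinset.2 hB)) (hinv a0 (List.mem_toFinset.2 ha0)) ?_ s p).2 (Or.inl hsp)
    rwa [Perm.sameCycle_apply_left, Perm.sameCycle_apply_right]

/-- the base case of the A-claim -/
theorem A_base {θ : Perm Sy} {μ : PW} {P Dd : Finset Sy} (hE : Env θ μ P Dd)
    (hθ : ∀ n, mr n ∉ μ.x → θ (mr n) = mr n) {c : ℕ}
    (hpar : (nf θ Dd μ.x + μ.ord.length) % 2 = c % 2) {B a0 : Sy} (hB : B ∈ μ.x) (hBD : B ∉ Dd)
    (ha0 : a0 ∈ μ.x) (ha0D : a0 ∉ Dd) (hBa : ¬ (fp θ μ.x).SameCycle B a0) {A : Finset Sy}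
    (hA : ∀ a ∈ A, a ∈ μ.x) (haA : a0 ∈ A)
    (hlink : ∀ X, OvP μ P X → ¬ (fp θ X.x).SameCycle B a0 → ∀ a ∈ A, ¬ (fp θ X.x).SameCycle B a)
    (hNN : ∀ (θ' : Perm Sy) (c' : ℕ), Env θ' μ P Dd → (∀ n, mr n ∉ μ.x → θ' (mr n) = mr n) →
      (nf θ' Dd μ.x + μ.ord.length) % 2 = c' % 2 → c' < c → ∀ i, i + μ.ord.length + 1 < c' →
      Sys.Ex (S := W) (W.nm μ) (PN θ' μ P Dd c') i)
    {i : ℕ} (hi : i + μ.ord.length + 2 < c) :
    Sys.Ex (S := W) (W.nm μ) (PA θ μ P Dd c B A) i := by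
  have hne : B ≠ a0 := fun h => hBa (h ▸ Perm.SameCycle.refl _ _)
  have hE' := Env_swap hE hB hBD ha0 ha0D hBa
  have hnf : ∀ X, OvP μ P X → _ := fun X hX => nf_swap hE hX hB hBD ha0 ha0D hne
  have hpX : ∀ X, OvP μ P X → (nf θ Dd X.x + X.ord.length) % 2 = c % 2 :=
    fun X hX => (Env.parity hE hX).trans hpar
  refine Pool.Agent.TH553.J769.Final.Ex_quot (PN_inv hE' (c - 1)) (PN_inv hE (c - 2))
    (PA_inv hE c hB hA) (PN_cvx hE' (c - 1)) ?_ ?_ ?_ ?_ ?_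
  · intro X
    constructor
    · rintro ⟨hX, h⟩
      have h1 := hpX X hX
      by_cases hs : (fp θ X.x).SameCycle B a0
      · have h2 := (hnf X hX).1 hs
        exact Or.inl ⟨hX, by omega⟩
      · have h2 := (hnf X hX).2 hs
        by_cases h3 : nf θ Dd X.x + X.ord.length = c
        · exact Or.inr ⟨hX, h3, hlink X hX hs⟩
        · exact Or.inl ⟨hX, by omega⟩
    · rintro (⟨hX, h⟩ | ⟨hX, h, h'⟩)
      · refine ⟨hX, ?_⟩
        have h1 := hpX X hX
        by_cases hs : (fp θ X.x).SameCycle B a0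
        · have h2 := (hnf X hX).1 hs
          omega
        · have h2 := (hnf X hX).2 hs
          omega
      · have h2 := (hnf X hX).2 (h' a0 haA)
        exact ⟨hX, by omega⟩
  · rintro X ⟨hX, h⟩ ⟨-, h', -⟩
    omega
  · intro X hX a ha _
    have ha' := mem_free.1 ha
    exact PN_dl hE hX ha'.1 ha'.2
  · refine hNN _ (c - 1) hE' ?_ ?_ (by omega) i (by omega)
    · intro n hn
      have h1 : mr n ≠ B := fun h => hn (h ▸ hB)
      have h2 : mr n ≠ a0 := fun h => hn (h ▸ ha0)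
      rw [Perm.mul_apply, swap_apply_of_ne_of_ne h1 h2]
      exact hθ n hn
    · have h2 := (hnf μ (OvP.self hE)).2 hBa
      omega
  · intro j hj
    exact hNN θ (c - 2) hE hθ (by omega) (by omega) j (by omega)

end Pool.Agent.TH110.J924
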