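import Pool.Agent.TH110.J924
import Pool.Agent.TH515.J875
import Pool.Agent.TH628.J905
import Pool.Agent.TH553.J907
import Pool.Agent.TH511.J908
set_option autoImplicit false

/-! The main induction. -/
namespace Pool.Agent.TH110.J940
open Pool.Agent.TH547.Arc Pool.Agent.TH110.J874
open Pool.Agent.TH110.J924
open Pool.Agent.TH515.J875 (G_lemma)
open Pool.Agent.TH628.J905 (muL_x)
open Pool.Agent.TH553.J907 (lift_tight)
open Pool.Agent.TH511.J908 (one_marked)
open Finset Equiv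

/-- the N-claim -/
def NClaim (D : ℕ) : Prop :=
  ∀ (θ : Perm Sy) (μ : PW) (P Dd : Finset Sy) (c : ℕ), Env θ μ P Dd →
    (∀ n, mr n ∉ μ.x → θ (mr n) = mr n) →
    (nf θ Dd μ.x + μ.ord.length) % 2 = c % 2 → c ≤ D + 1 + μ.ord.length →
    ∀ i, i + μ.ord.length + 1 < c → Sys.Ex (S := W) (W.nm μ) (PN θ μ P Dd c) i

/-- the A-claim -/
def AClaim (D : ℕ) : Prop :=
  ∀ (θ : Perm Sy) (μ : PW) (P Dd : Finset Sy) (c : ℕ) (B : Sy) (A : Finset Sy), Env θ μ P Dd →
    (∀ n, mr n ∉ μ.x → θ (mr n) = mr n) →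
    (nf θ Dd μ.x + μ.ord.length) % 2 = c % 2 → B ∈ μ.x → B ∉ Dd → (∀ a ∈ A, a ∈ μ.x) →
    (∃ a ∈ A, a ∉ Dd) → c ≤ D + 2 + μ.ord.length →
    ∀ i, i + μ.ord.length + 2 < c → Sys.Ex (S := W) (W.nm μ) (PA θ μ P Dd c B A) i

theorem exists_bound (μ : PW) : ∃ N, ∀ n, mr n ∈ μ.x → n < N := by
  obtain ⟨x, hx⟩ : ∃ x, x = μ.x := ⟨_, rfl⟩
  rw [← hx]
  clear hx
  induction x with
  | nil => exact ⟨0, fun n h => by simp at h⟩
  | cons s x ih =>
    obtain ⟨N, hN⟩ := ih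
    rcases s with m | ⟨a, e⟩
    · refine ⟨N + m + 1, fun n h => ?_⟩
      rcases List.mem_cons.1 h with h | h
      · have : n = m := by simpa using h
        omega
      · have := hN n h
        omega
    · refine ⟨N, fun n h => ?_⟩
      rcases List.mem_cons.1 h with h | h
      · simp at h
      · exact hN n h

theorem nm_eq {μ μ' : PW} (h : μ'.ord = μ.ord) : W.nm μ' = W.nm μ := by
  show μ'.ord.toFinset = μ.ord.toFinset
  rw [h]

theorem mem_muJ {μ : PW} {p : Sy} {J : Finset ℕ} (hp : p ∈ μ.x) (hJ : ∀ j ∈ J, mr j ∉ μ.x)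
    {s : Sy} (hs : s ∈ μ.x) : s ∈ (muJ p μ J).x := by
  obtain ⟨l1, l2, hl⟩ := List.append_of_mem hp
  have := muL_x (p := p) (μ := μ) (l := J.sort (· ≥ ·)) (Finset.sort_nodup _ _)
    (fun n hn => hJ n ((Finset.mem_sort _).1 hn)) hl
  unfold muJ
  rw [this]
  rw [hl] at hs
  simp only [List.mem_append, List.mem_cons] at hs ⊢
  tauto

/-- the case of one allowed block -/
theorem N_one {D : ℕ} (hA : AClaim D) {θ : Perm Sy} {μ : PW} {p : Sy} {Dd : Finset Sy} {c : ℕ}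
    (hE : Env θ μ {p} Dd) (hθ : ∀ n, mr n ∉ μ.x → θ (mr n) = mr n)
    (hpar : (nf θ Dd μ.x + μ.ord.length) % 2 = c % 2) (hc : c ≤ D + 2 + μ.ord.length)
    {i : ℕ} (hi : i + μ.ord.length + 1 < c) :
    Sys.Ex (S := W) (W.nm μ) (PN θ μ {p} Dd c) i := by
  obtain ⟨N, hN⟩ := exists_bound μ
  have hN0 : ∀ n, N + 1 ≤ n → mr n ∉ μ.x := fun n h h' => by
    have := hN n h'
    omega
  have hpμ : p ∈ μ.x := (hE.sub p (Finset.mem_singleton_self p)).1
  refine one_marked (N0 := N + 1) hE hθ hN0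
    ⟨N, Nat.lt_succ_self N, fun h => absurd (hN N h) (lt_irrefl _)⟩ hpar ?_ hi
  intro i z hi hz hdz
  refine lift_tight hE hθ hN0 ?_ hi hz hdz
  intro J hJ hJ2 i hi
  have hE' := Pool.Agent.TH628.J905.Env.muJ hE hθ hN0 hJ
  have ho := Pool.Agent.TH628.J905.Env.muJ_ord hE hθ hN0 J hJ
  have hn := Pool.Agent.TH628.J905.Env.muJ_nf hE hθ hN0 hJ
  have hJμ : ∀ j ∈ J, mr j ∉ μ.x := fun j hj => hN0 j (hJ j hj)
  have hsub : ∀ s ∈ mrs J, s ∈ (muJ p μ J).x ∧ s ∉ Dd :=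
    fun s hs => hE'.sub s (Finset.mem_insert_of_mem hs)
  have key := hA θ (muJ p μ J) (insert p (mrs J)) Dd c p (mrs J) hE' ?_ (by rw [hn, ho]; exact hpar)
    (hE'.sub p (Finset.mem_insert_self _ _)).1 (hE'.sub p (Finset.mem_insert_self _ _)).2
    (fun a ha => (hsub a ha).1) ?_ (by rw [ho]; exact hc) i (by rw [ho]; exact hi)
  · rw [nm_eq ho] at key
    exact key
  · intro n hn
    exact hθ n (fun h => hn (mem_muJ hpμ hJμ h))
  · obtain ⟨j, hj⟩ := Finset.card_pos.1 (show 0 < J.card by omega)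
    have : mr j ∈ mrs J := Finset.mem_image_of_mem _ hj
    exact ⟨mr j, this, (hsub _ this).2⟩

theorem N_step {D : ℕ} (hN : NClaim D) (hA : AClaim D) : NClaim (D + 1) := by
  intro θ μ P Dd c
  induction P using Finset.strongInduction with
  | H P ih =>
    intro hE hθ hpar hc i hi
    by_cases h1 : ∃ p ∈ P, ∃ q ∈ P, p ≠ q
    · obtain ⟨p, hp, q, hq, hpq⟩ := h1
      refine G_lemma hE hp hq hpq (fun X => nf θ Dd X.x + X.ord.length ≤ c) (PN_inv hE c)
        (PN_cvx hE c) (hins_N hE hp hq hpq c) i ?_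
      intro μ' P' j hE' hμ' hsub hj hor hO
      have hθ' : ∀ n, mr n ∉ μ'.x → θ (mr n) = mr n := fun n hn => hθ n (fun h => hn (hsub _ h))
      have hpar' : (nf θ Dd μ'.x + μ'.ord.length) % 2 = c % 2 := (Pool.Agent.TH110.J874.Env.parity hE hμ').trans hpar
      rcases hor with hlt | ⟨rfl, rfl⟩
      · exact hN θ μ' P' Dd c hE' hθ' hpar' (by omega) j (by omega)
      · exact ih (P.erase p) (Finset.erase_ssubset hp) hE' hθ' hpar' hc j (by omega)
    · obtain ⟨p, hp⟩ := hE.ne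
      have hP : P = {p} := by
        rw [Finset.eq_singleton_iff_unique_mem]
        refine ⟨hp, fun q hq => ?_⟩
        by_contra hne
        exact h1 ⟨q, hq, p, hp, hne⟩
      subst hP
      exact N_one hA hE hθ hpar (by omega) hi

theorem Ex_empty {F : Finset ℕ} {P : PW → Prop} (h : ∀ X, ¬ P X) (i : ℕ) :
    Sys.Ex (S := W) F P i := by
  intro z hz _
  have : z = 0 := by
    ext q
    by_contra hq
    obtain ⟨X, -, hX, -⟩ := Sys.mem_Ch.1 hz q hq
    exact h X hX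
  exact ⟨0, Submodule.zero_mem _, by rw [map_zero, this]⟩

theorem PA_live {θ : Perm Sy} {μ : PW} {P Dd : Finset Sy} (hE : Env θ μ P Dd) (c : ℕ) {B : Sy}
    (hB : B ∈ μ.x) (hBD : B ∉ Dd) (A : Finset Sy) :
    PA θ μ P Dd c B A = PA θ μ P Dd c B (A \ Dd) := by
  funext X
  refine propext ⟨fun h => ⟨h.1, h.2.1, fun a ha => h.2.2 a (Finset.mem_sdiff.1 ha).1⟩,
    fun h => ⟨h.1, h.2.1, fun a ha hs => ?_⟩⟩
  exact h.2.2 a (Finset.mem_sdiff.2 ⟨ha, (cyc_live hE h.1 (mem_of_mu h.1 hB) hBD hs).2⟩) hs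

theorem PA_cvx' {θ : Perm Sy} {μ : PW} {P Dd : Finset Sy} (hE : Env θ μ P Dd) (c : ℕ) {B : Sy}
    (hB : B ∈ μ.x) (hBD : B ∉ Dd) {A : Finset Sy} (hA : ∀ s ∈ A, s ∈ μ.x) :
    Sys.Cvx (S := W) (W.nm μ) (PA θ μ P Dd c B A) := by
  rw [PA_live hE c hB hBD A]
  exact PA_cvx hE c hB hBD (fun s hs => ⟨hA s (Finset.mem_sdiff.1 hs).1, (Finset.mem_sdiff.1 hs).2⟩)

theorem A_step {D : ℕ} (hN : NClaim (D + 1)) (hA : AClaim D) : AClaim (D + 1) := by
  intro θ μ P Dd c B A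
  induction P using Finset.strongInduction with
  | H P ih =>
    intro hE hθ hpar hB hBD hAμ hAD hc i hi
    have hfr : ∀ p ∈ P, ∀ (μ' : PW) (P' : Finset Sy) (j : ℕ), Env θ μ' P' Dd → OvP μ P μ' →
      (∀ s ∈ μ.x, s ∈ μ'.x) → j + μ'.ord.length = i + μ.ord.length →
      (μ.ord.length < μ'.ord.length ∨ (μ' = μ ∧ P' = P.erase p)) →
      (∀ X, OvP μ' P' X → OvP μ P X) →
      Sys.Ex (S := W) (W.nm μ') (PA θ μ' P' Dd c B A) j := by
      intro p hp μ' P' j hE' hμ' hsub hj hor hO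
      have hθ' : ∀ n, mr n ∉ μ'.x → θ (mr n) = mr n := fun n hn => hθ n (fun h => hn (hsub _ h))
      have hpar' : (nf θ Dd μ'.x + μ'.ord.length) % 2 = c % 2 := (Pool.Agent.TH110.J874.Env.parity hE hμ').trans hpar
      rcases hor with hlt | ⟨rfl, rfl⟩
      · exact hA θ μ' P' Dd c B A hE' hθ' hpar' (hsub B hB) hBD (fun a ha => hsub a (hAμ a ha)) hAD
          (by omega) j (by omega)
      · exact ih (P.erase p) (Finset.erase_ssubset hp) hE' hθ' hpar' hB hBD hAμ hAD hc j (by omega)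
    by_cases hi1 : ∃ p ∈ P, ∃ q ∈ P, p ≠ q ∧ (fp θ μ.x).SameCycle p q
    · obtain ⟨p, hp, q, hq, hpq, hs⟩ := hi1
      exact G_lemma hE hp hq hpq
        (fun X => nf θ Dd X.x + X.ord.length = c ∧ ∀ a ∈ A, ¬ (fp θ X.x).SameCycle B a)
        (PA_inv hE c hB hAμ) (PA_cvx' hE c hB hBD hAμ)
        (hins_A hE hp hq hpq c hB hBD hAμ (fun _ => ⟨q, hq, Ne.symm hpq, hs⟩)
          (fun _ => Or.inl ⟨q, hq, Ne.symm hpq, hs⟩)) i (hfr p hp)
    · have huniq : ∀ q ∈ P, ∀ p' ∈ P, (fp θ μ.x).SameCycle q p' → p' = q := by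
        intro q hq p' hp' hs
        by_contra hne
        exact hi1 ⟨q, hq, p', hp', Ne.symm hne, hs⟩
      obtain ⟨pB, hpB, hBpB⟩ := hE.live B hB hBD
      obtain ⟨a0, ha0, ha0D⟩ := hAD
      have ha0μ := hAμ a0 ha0
      obtain ⟨pa, hpa, hapa⟩ := hE.live a0 ha0μ ha0D
      by_cases ho : ∃ a ∈ A, a ∉ Dd ∧ (fp θ μ.x).SameCycle B a
      · obtain ⟨a, ha, haD, hBa⟩ := ho
        refine Ex_empty (fun X hX => ?_) i
        obtain ⟨hXo, -, hn⟩ := hX
        refine hn a ha ?_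
        exact (linked hE hXo hpB hB hBpB (huniq pB hpB)).trans
          (linked hE hXo hpB (hAμ a ha) (hBa.symm.trans hBpB) (huniq pB hpB)).symm
      · have hnB : ∀ a ∈ A, a ∉ Dd → ¬ (fp θ μ.x).SameCycle B a := fun a ha haD h => ho ⟨a, ha, haD, h⟩
        by_cases hp : ∃ p ∈ P, p ≠ pB ∧ p ≠ pa
        · obtain ⟨p, hp, hpB', hpa'⟩ := hp
          exact G_lemma hE hp hpa hpa'
            (fun X => nf θ Dd X.x + X.ord.length = c ∧ ∀ a ∈ A, ¬ (fp θ X.x).SameCycle B a)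
            (PA_inv hE c hB hAμ) (PA_cvx' hE c hB hBD hAμ)
            (hins_A hE hp hpa hpa' c hB hBD hAμ
              (fun h => absurd (huniq p hp pB hpB (h.trans hBpB)).symm hpB')
              (fun _ => Or.inr ⟨a0, ha0, hapa.symm, huniq pa hpa⟩)) i (hfr p hp)
        · refine A_base hE hθ hpar hB hBD ha0μ ha0D (hnB a0 ha0 ha0D) hAμ ha0 ?_ ?_ hi
          · intro X hX hn a ha hs
            have haD := (cyc_live hE hX (mem_of_mu hX hB) hBD hs).2
            obtain ⟨p', hp', hap'⟩ := hE.live a (hAμ a ha) haD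
            have : p' = pB ∨ p' = pa := by
              by_contra h
              rw [not_or] at h
              exact hp ⟨p', hp', h.1, h.2⟩
            rcases this with rfl | rfl
            · exact hnB a ha haD (hBpB.trans hap'.symm)
            · exact hn (hs.trans ((linked hE hX hpa (hAμ a ha) hap' (huniq _ hpa)).trans
                (linked hE hX hpa ha0μ hapa (huniq _ hpa)).symm))
          · intro θ' c' hE' hθ' hpar' hc' j hj
            exact hN θ' μ P Dd c' hE' hθ' hpar' (by omega) j hj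

theorem both (D : ℕ) : NClaim D ∧ AClaim D := by
  induction D with
  | zero =>
    constructor
    · intro θ μ P Dd c _ _ _ hc i hi
      omega
    · intro θ μ P Dd c B A _ _ _ _ _ _ _ hc i hi
      omega
  | succ D ih =>
    have h := N_step ih.1 ih.2
    exact ⟨h, A_step h ih.2⟩

/-- Sphericity: the complex of nonseparating arc families of a connected surface without
punctures, modulo the pure mapping class group, is exact below the top degree. -/
theorem N_thm {θ : Perm Sy} {μ : PW} {P Dd : Finset Sy} {c : ℕ} (hE : Env θ μ P Dd)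
    (hθ : ∀ n, mr n ∉ μ.x → θ (mr n) = mr n)
    (hpar : (nf θ Dd μ.x + μ.ord.length) % 2 = c % 2) {i : ℕ} (hi : i + μ.ord.length + 1 < c) :
    Sys.Ex (S := W) (W.nm μ) (PN θ μ P Dd c) i :=
  (both c).1 θ μ P Dd c hE hθ hpar (by omega) i hi

end Pool.Agent.TH110.J940
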