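import Pool.Agent.TH806.N4.Defs
set_option autoImplicit false

/-! Job N4-AFP: the symmetric approximate functional equation with fixed lengths. -/
namespace Pool.Agent.TH110.N4_AFP
open Finset Filter Topology MeasureTheory Complex MonoidAlgebra
open Pool.Agent.W184.NZ Pool.Agent.TH806 Pool.Agent.TH806.N4
open Pool.Agent.H306R2.SM (om cl Yf)
open Pool.Agent.H262R4.TM (Rng Ck)
open Pool.Agent.H448R2.GC (cu cs ker XX)

/-- the smoothed sum with a fixed range -/
noncomputable def gs (N k : ℕ) (c : ℝ) (s : ℂ) (D : ℝ) : ℂ :=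
  ∑ m ∈ Finset.Icc 1 N, (cu k c (Real.log m - D) : ℂ) * (m : ℂ) ^ (-s)

theorem cs_ext (k : ℕ) (c D : ℝ) (hc : 0 < c) (N : ℕ) (hN : Real.exp (D + k * c) ≤ N) (s : ℂ) :
    cs k c D s = gs N k c s D := by
  unfold cs gs
  refine Finset.sum_subset ?_ ?_
  · intro m hm
    rw [Finset.mem_Icc] at hm ⊢
    refine ⟨hm.1, ?_⟩
    have h1 : (m : ℝ) ≤ Real.exp (D + k * c) :=
      le_trans (by exact_mod_cast hm.2) (Nat.floor_le (Real.exp_pos _).le)
    exact_mod_cast h1.trans hN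
  · intro m hm hm'
    rw [Finset.mem_Icc] at hm hm'
    have h1 : ⌊Real.exp (D + k * c)⌋₊ < m := by
      by_contra h
      exact hm' ⟨hm.1, by omega⟩
    have h2 : Real.exp (D + k * c) < m := (Nat.floor_lt (Real.exp_pos _).le).1 h1
    have hm0 : (0 : ℝ) < m := by exact_mod_cast hm.1
    have h3 : D + k * c < Real.log m := (Real.lt_log_iff_exp_lt hm0).2 h2
    rw [Pool.Agent.H448R2.GC.cu_zero k c _ hc (by linarith)]
    simp

theorem gs_deriv (N k : ℕ) (c : ℝ) (hc : 0 < c) (s : ℂ) (D : ℝ) :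
    HasDerivAt (gs N (k + 2) c s) ((gs N (k + 1) c s (D + c) - gs N (k + 1) c s D) / c) D := by
  unfold gs
  have h : ∀ m ∈ Finset.Icc 1 N, HasDerivAt
      (fun D : ℝ => (cu (k + 2) c (Real.log m - D) : ℂ) * (m : ℂ) ^ (-s))
      (((-((cu (k + 1) c (Real.log m - D) - cu (k + 1) c (Real.log m - D - c)) / c) : ℝ) : ℂ) *
        (m : ℂ) ^ (-s)) D := by
    intro m _
    have h1 := Pool.Agent.H448R2.GC.cu_deriv k c (Real.log m - D) hc
    have h2 : HasDerivAt (fun D : ℝ => Real.log m - D) (-1) D := by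
      simpa using (hasDerivAt_id D).const_sub (Real.log m)
    have h3 := HasDerivAt.comp D h1 h2
    have h4 := h3.ofReal_comp
    have h5 := h4.mul_const ((m : ℂ) ^ (-s))
    refine h5.congr_deriv ?_
    congr 2
    ring
  have h1 := HasDerivAt.fun_sum h
  refine h1.congr_deriv ?_
  rw [← Finset.sum_sub_distrib, Finset.sum_div]
  refine Finset.sum_congr rfl fun m _ => ?_
  rw [show Real.log m - (D + c) = Real.log m - D - c by ring]
  have hc' : (c : ℂ) ≠ 0 := by exact_mod_cast hc.ne'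
  push_cast
  field_simp
  ring

theorem gs_cont (N k : ℕ) (c : ℝ) (hc : 0 < c) (s : ℂ) : Continuous (gs N (k + 1) c s) := by
  unfold gs
  refine continuous_finsetSum _ fun m _ => ?_
  refine Continuous.mul (Complex.continuous_ofReal.comp ?_) continuous_const
  exact (Pool.Agent.H448R2.GC.cu_cont k c hc).comp (by fun_prop)

/-- Cauchy-Schwarz on `[-3,3]` -/
theorem sq_int_le (g : ℝ → ℝ) (hg : Continuous g) :
    (∫ u in (-3:ℝ)..3, g u) ^ 2 ≤ 6 * ∫ u in (-3:ℝ)..3, g u ^ 2 := by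
  set m := (∫ u in (-3:ℝ)..3, g u) / 6 with hm
  have h0 : 0 ≤ ∫ u in (-3:ℝ)..3, (g u - m) ^ 2 :=
    intervalIntegral.integral_nonneg (by norm_num) fun u _ => sq_nonneg _
  have h1 : (∫ u in (-3:ℝ)..3, (g u - m) ^ 2) =
      (∫ u in (-3:ℝ)..3, g u ^ 2) - 2 * m * (∫ u in (-3:ℝ)..3, g u) + 6 * m ^ 2 := by
    have e : ∀ u, (g u - m) ^ 2 = g u ^ 2 - 2 * m * g u + m ^ 2 := fun u => by ring
    simp_rw [e]
    rw [intervalIntegral.integral_add, intervalIntegral.integral_sub,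
      intervalIntegral.integral_const_mul, intervalIntegral.integral_const]
    · norm_num
    · exact (hg.pow 2).intervalIntegrable _ _
    · exact (continuous_const.mul hg).intervalIntegrable _ _
    · exact ((hg.pow 2).sub (continuous_const.mul hg)).intervalIntegrable _ _
    · exact continuous_const.intervalIntegrable _ _
  rw [h1] at h0
  have h2 : (∫ u in (-3:ℝ)..3, g u) = 6 * m := by rw [hm]; ring
  rw [h2] at h0 ⊢
  nlinarith

/-- the difference of two values of a smoothed sum -/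
theorem gs_diff (N k : ℕ) (c : ℝ) (hc : 0 < c) (s : ℂ) (D v : ℝ) (hv : |v| ≤ 3) :
    ‖gs N (k + 2) c s (D + v) - gs N (k + 2) c s D‖ ^ 2 ≤ 12 / c ^ 2 *
      ∫ u in (-3:ℝ)..3, (‖gs N (k + 1) c s (D + u + c)‖ ^ 2 + ‖gs N (k + 1) c s (D + u)‖ ^ 2) := by
  set g' : ℝ → ℂ := fun u => (gs N (k + 1) c s (D + u + c) - gs N (k + 1) c s (D + u)) / c with hg'
  have hc1 : Continuous g' := by
    rw [hg']
    refine Continuous.div_const (Continuous.sub ?_ ?_) _
    · exact (gs_cont N k c hc s).comp (by fun_prop)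
    · exact (gs_cont N k c hc s).comp (by fun_prop)
  have hd : ∀ u : ℝ, HasDerivAt (fun u : ℝ => gs N (k + 2) c s (D + u)) (g' u) u := by
    intro u
    have := gs_deriv N k c hc s (D + u)
    exact HasDerivAt.comp_const_add D u this
  have h1 : gs N (k + 2) c s (D + v) - gs N (k + 2) c s D = ∫ u in (0:ℝ)..v, g' u := by
    rw [intervalIntegral.integral_eq_sub_of_hasDerivAt (fun u _ => hd u)
      (hc1.intervalIntegrable _ _)]
    simp
  have h2 : ‖gs N (k + 2) c s (D + v) - gs N (k + 2) c s D‖ ≤ ∫ u in (-3:ℝ)..3, ‖g' u‖ := by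
    rw [h1]
    refine (intervalIntegral.norm_integral_le_abs_integral_norm).trans ?_
    rw [abs_le] at hv
    rcases le_total 0 v with h | h
    · rw [abs_of_nonneg (intervalIntegral.integral_nonneg h fun u _ => norm_nonneg _)]
      refine intervalIntegral.integral_mono_interval (by norm_num) h hv.2
        (Eventually.of_forall fun u => norm_nonneg _) (hc1.norm.intervalIntegrable _ _)
    · rw [intervalIntegral.integral_symm, abs_neg,
        abs_of_nonneg (intervalIntegral.integral_nonneg h fun u _ => norm_nonneg _)]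
      refine intervalIntegral.integral_mono_interval hv.1 h (by norm_num)
        (Eventually.of_forall fun u => norm_nonneg _) (hc1.norm.intervalIntegrable _ _)
  have h3 := sq_int_le (fun u => ‖g' u‖) hc1.norm
  have h4 : ∀ u, ‖g' u‖ ^ 2 ≤ 2 / c ^ 2 *
      (‖gs N (k + 1) c s (D + u + c)‖ ^ 2 + ‖gs N (k + 1) c s (D + u)‖ ^ 2) := by
    intro u
    rw [hg']
    simp only
    rw [norm_div, div_pow, Complex.norm_real, Real.norm_eq_abs, sq_abs, div_mul_eq_mul_div]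
    refine div_le_div_of_nonneg_right ?_ (sq_nonneg c)
    have h5 := norm_sub_le (gs N (k + 1) c s (D + u + c)) (gs N (k + 1) c s (D + u))
    have h6 : ‖gs N (k + 1) c s (D + u + c) - gs N (k + 1) c s (D + u)‖ ^ 2 ≤
        (‖gs N (k + 1) c s (D + u + c)‖ + ‖gs N (k + 1) c s (D + u)‖) ^ 2 :=
      pow_le_pow_left₀ (norm_nonneg _) h5 2
    nlinarith [sq_nonneg (‖gs N (k + 1) c s (D + u + c)‖ - ‖gs N (k + 1) c s (D + u)‖)]
  have hc2 : Continuous fun u : ℝ =>
      (‖gs N (k + 1) c s (D + u + c)‖ ^ 2 + ‖gs N (k + 1) c s (D + u)‖ ^ 2) := by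
    refine Continuous.add ?_ ?_
    · exact (((gs_cont N k c hc s).comp (by fun_prop)).norm).pow 2
    · exact (((gs_cont N k c hc s).comp (by fun_prop)).norm).pow 2
  have h7 : (∫ u in (-3:ℝ)..3, ‖g' u‖ ^ 2) ≤ 2 / c ^ 2 *
      ∫ u in (-3:ℝ)..3, (‖gs N (k + 1) c s (D + u + c)‖ ^ 2 + ‖gs N (k + 1) c s (D + u)‖ ^ 2) := by
    rw [← intervalIntegral.integral_const_mul]
    exact intervalIntegral.integral_mono_on (by norm_num) ((hc1.norm.pow 2).intervalIntegrable _ _)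
      ((continuous_const.mul hc2).intervalIntegrable _ _) (fun u _ => h4 u)
  calc ‖gs N (k + 2) c s (D + v) - gs N (k + 2) c s D‖ ^ 2
      ≤ (∫ u in (-3:ℝ)..3, ‖g' u‖) ^ 2 := pow_le_pow_left₀ (norm_nonneg _) h2 2
    _ ≤ 6 * ∫ u in (-3:ℝ)..3, ‖g' u‖ ^ 2 := h3
    _ ≤ 6 * (2 / c ^ 2 *
      ∫ u in (-3:ℝ)..3, (‖gs N (k + 1) c s (D + u + c)‖ ^ 2 + ‖gs N (k + 1) c s (D + u)‖ ^ 2)) := by
        linarith
    _ = _ := by ring

/-- the same for `cs` -/
theorem cs_diff' (k : ℕ) (c : ℝ) (hc : 0 < c) (s : ℂ) (D v : ℝ) (hv : |v| ≤ 3) :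
    ‖cs (k + 2) c (D + v) s - cs (k + 2) c D s‖ ^ 2 ≤ 12 / c ^ 2 *
      ∫ u in (-3:ℝ)..3, (‖cs (k + 1) c (D + u + c) s‖ ^ 2 + ‖cs (k + 1) c (D + u) s‖ ^ 2) := by
  obtain ⟨N, hN⟩ := exists_nat_ge (Real.exp (D + 3 + ((k:ℝ) + 2) * c))
  have hN' : ∀ x : ℝ, x ≤ D + 3 + ((k:ℝ) + 2) * c → Real.exp x ≤ N :=
    fun x hx => (Real.exp_le_exp.2 hx).trans hN
  rw [abs_le] at hv
  have e1 : cs (k + 2) c (D + v) s = gs N (k + 2) c s (D + v) :=
    cs_ext _ _ _ hc N (hN' _ (by push_cast; nlinarith [hv.2])) s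
  have e2 : cs (k + 2) c D s = gs N (k + 2) c s D :=
    cs_ext _ _ _ hc N (hN' _ (by push_cast; nlinarith [hv.2])) s
  have e3 : (∫ u in (-3:ℝ)..3, (‖cs (k + 1) c (D + u + c) s‖ ^ 2 + ‖cs (k + 1) c (D + u) s‖ ^ 2)) =
      ∫ u in (-3:ℝ)..3, (‖gs N (k + 1) c s (D + u + c)‖ ^ 2 + ‖gs N (k + 1) c s (D + u)‖ ^ 2) := by
    refine intervalIntegral.integral_congr fun u hu => ?_
    rw [Set.uIcc_of_le (by norm_num)] at hu
    rw [cs_ext (k + 1) c (D + u + c) hc N (hN' _ (by push_cast; nlinarith [hu.2])) s,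
      cs_ext (k + 1) c (D + u) hc N (hN' _ (by push_cast; nlinarith [hu.2])) s]
  rw [e1, e2, e3]
  exact gs_diff N k c hc s D v (abs_le.2 hv)

theorem one_sub_cl (t : ℝ) : 1 - cl t = (starRingEnd ℂ) (cl t) := by
  unfold Pool.Agent.H306R2.SM.cl
  simp only [map_add, map_div₀, map_one, map_mul, conj_ofReal, conj_I]
  rw [show (starRingEnd ℂ) 2 = 2 from Complex.conj_ofNat 2]
  ring

theorem norm_XX_cl (t : ℝ) : ‖XX (1 - cl t)‖ = 1 := by
  rw [one_sub_cl, Pool.Agent.H448R2.GC.X1.norm_XX_conj, Pool.Agent.H448R2.GC.X1.XX_eq]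
  exact H345.norm_XX_half t

theorem t_AFP (h : P_AFE) : P_AFP := by
  intro η hη hη1
  obtain ⟨k₀, hk₀⟩ := h η hη hη1
  refine ⟨k₀ + 1, fun k hk => ?_⟩
  obtain ⟨T₀, hT₀⟩ := hk₀ (k + 1) (by omega)
  obtain ⟨j, rfl⟩ : ∃ j, k = j + 1 := ⟨k - 1, by omega⟩
  refine ⟨24 * ((j:ℝ) + 2) ^ 2 / η ^ 2, max T₀ (Real.exp 100), by positivity, ?_⟩
  intro T hT t ht1 ht2 c D1 D2 hc hD1 hD2
  have hT0 : T₀ ≤ T := (le_max_left _ _).trans hT
  have hTe : Real.exp 100 ≤ T := (le_max_right _ _).trans hT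
  have hTpos : 0 < T := (Real.exp_pos _).trans_le hTe
  have hL : 100 ≤ Real.log T := (Real.le_log_iff_exp_le hTpos).2 hTe
  have htpos : 0 < t := by linarith
  have hcpos : 0 < c := by
    rw [hc]
    positivity
  -- the approximate functional equation
  have h1 := hT₀ T hT0 t ht1 ht2 D1 (by rw [hD1]; nlinarith) (by rw [hD1]; nlinarith)
  have hcc : η * Real.log T / ((j + 1 + 1 : ℕ) : ℝ) = c := by
    rw [hc]; push_cast; ring
  rw [hcc] at h1
  set D2t := Real.log (t / (2 * Real.pi)) - D1 - η * Real.log T with hD2t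
  have hconj : cs (j + 1 + 1) c D2t (1 - cl t) = (starRingEnd ℂ) (cs (j + 1 + 1) c D2t (cl t)) := by
    rw [one_sub_cl, Pool.Agent.H448R2.GC.M1.cs_conj]
  rw [hconj] at h1
  -- the change of the length
  set v := Real.log (t / T) with hv
  have hv3 : |v| ≤ 3 := by
    rw [abs_le, hv]
    constructor
    · rw [Real.le_log_iff_exp_le (by positivity), le_div_iff₀ hTpos]
      have : Real.exp (-3) ≤ 1 / 8 := by
        rw [Real.exp_neg, ← one_div]
        refine one_div_le_one_div_of_le (by norm_num) ?_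
        have h2 := Real.add_one_le_exp (1:ℝ)
        have h3 : Real.exp 3 = Real.exp 1 ^ 3 := by
          rw [← Real.exp_nat_mul]; norm_num
        rw [h3]
        have : (2:ℝ) ^ 3 ≤ Real.exp 1 ^ 3 := pow_le_pow_left₀ (by norm_num) (by linarith) 3
        linarith
      nlinarith
    · rw [Real.log_le_iff_le_exp (by positivity), div_le_iff₀ hTpos]
      have : (8:ℝ) ≤ Real.exp 3 := by
        have h2 := Real.add_one_le_exp (1:ℝ)
        have h3 : Real.exp 3 = Real.exp 1 ^ 3 := by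
          rw [← Real.exp_nat_mul]; norm_num
        rw [h3]
        have : (2:ℝ) ^ 3 ≤ Real.exp 1 ^ 3 := pow_le_pow_left₀ (by norm_num) (by linarith) 3
        linarith
      nlinarith
  have hD2v : D2t = D2 + v := by
    rw [hD2t, hD2, hv, Real.log_div (by positivity) (by positivity),
      Real.log_div (by positivity) (by positivity), Real.log_div (by positivity) (by positivity)]
    ring
  have h2 := cs_diff' j c hcpos (cl t) D2 v hv3
  rw [← hD2v] at h2
  set a := riemannZeta (cl t) - cs (j + 1 + 1) c D1 (cl t) with ha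
  set x := cs (j + 1 + 1) c D2t (cl t) with hx
  set y := cs (j + 1 + 1) c D2 (cl t) with hy
  set I := ∫ u in (-3:ℝ)..3, (‖cs (j + 1) c (D2 + u + c) (cl t)‖ ^ 2 +
    ‖cs (j + 1) c (D2 + u) (cl t)‖ ^ 2) with hI
  have h3 : ‖a - XX (1 - cl t) * (starRingEnd ℂ) y‖ ≤ T ^ (-(1 / 5) : ℝ) + ‖x - y‖ := by
    have e : a - XX (1 - cl t) * (starRingEnd ℂ) y =
        (a - XX (1 - cl t) * (starRingEnd ℂ) x) + XX (1 - cl t) * (starRingEnd ℂ) (x - y) := by
      rw [map_sub]; ring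
    rw [e]
    refine (norm_add_le _ _).trans (add_le_add h1 ?_)
    rw [norm_mul, norm_XX_cl, one_mul, RCLike.norm_conj]
  have h4 : ‖a - XX (1 - cl t) * (starRingEnd ℂ) y‖ ^ 2 ≤
      2 * (T ^ (-(1 / 5) : ℝ)) ^ 2 + 2 * ‖x - y‖ ^ 2 := by
    have := pow_le_pow_left₀ (norm_nonneg _) h3 2
    nlinarith [sq_nonneg (T ^ (-(1 / 5) : ℝ) - ‖x - y‖)]
  have h5 : 2 * (T ^ (-(1 / 5) : ℝ)) ^ 2 ≤ T ^ (-(1 / 3) : ℝ) := by
    have e1 : (T ^ (-(1 / 5) : ℝ)) ^ 2 = T ^ (-(2 / 5) : ℝ) := by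
      rw [← Real.rpow_natCast, ← Real.rpow_mul hTpos.le]
      norm_num
    have e2 : T ^ (-(1 / 3) : ℝ) = T ^ (1 / 15 : ℝ) * T ^ (-(2 / 5) : ℝ) := by
      rw [← Real.rpow_add hTpos]
      norm_num
    rw [e1, e2]
    refine mul_le_mul_of_nonneg_right ?_ (Real.rpow_nonneg hTpos.le _)
    rw [Real.rpow_def_of_pos hTpos]
    have : (1:ℝ) ≤ Real.log T * (1 / 15) := by linarith
    have h6 := Real.add_one_le_exp (Real.log T * (1 / 15))
    linarith
  have h6 : 12 / c ^ 2 = 12 * ((j:ℝ) + 2) ^ 2 / η ^ 2 / Real.log T ^ 2 := by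
    rw [hc]
    push_cast
    have hj : (j:ℝ) + 2 ≠ 0 := by positivity
    have hl : Real.log T ≠ 0 := by linarith
    field_simp
    ring
  rw [h6] at h2
  calc ‖a - XX (1 - cl t) * (starRingEnd ℂ) y‖ ^ 2
      ≤ T ^ (-(1 / 3) : ℝ) + 2 * (12 * ((j:ℝ) + 2) ^ 2 / η ^ 2 / Real.log T ^ 2 * I) := by linarith
    _ = T ^ (-(1 / 3) : ℝ) + 24 * ((j:ℝ) + 2) ^ 2 / η ^ 2 / Real.log T ^ 2 * I := by ring

end Pool.Agent.TH110.N4_AFP
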